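import Mathlib
import Pool.Agent.Helper27_UBT.Stmts

/-! # UBT: EXT1 -/

open Polynomial NumberField

namespace UBT

theorem numberField_of_finite81 (K₁ E : Type) [Field K₁] [NumberField K₁] [Field E] [Algebra K₁ E]
    [FiniteDimensional K₁ E] : NumberField E := by
  have : CharZero E := charZero_of_injective_algebraMap (algebraMap K₁ E).injective
  exact NumberField.mk (to_finiteDimensional := FiniteDimensional.trans ℚ K₁ E)

theorem ext1 : Ext1Stmt := by
  intro K₁ _ _ F hF
  refine ⟨F.SplittingField, inferInstance, numberField_of_finite81 K₁ F.SplittingField,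
    inferInstance, SplittingField.splits F, ?_⟩
  have : IsGalois K₁ F.SplittingField := IsGalois.mk
  rw [← IsGalois.card_aut_eq_finrank K₁ F.SplittingField]
  have : Fact ((F.map (algebraMap K₁ F.SplittingField)).Splits) := ⟨SplittingField.splits F⟩
  have h := Gal.galActionHom_injective F F.SplittingField
  have : Finite (F.rootSet F.SplittingField) := inferInstance
  have h1 := Nat.card_le_card_of_injective _ h
  have h2 : Nat.card (F.rootSet F.SplittingField) ≤ F.natDegree := by
    classical
    have h3 : F.rootSet F.SplittingField = ((F.aroots F.SplittingField).toFinset : Set _) := by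
      rw [rootSet_def]
    rw [h3, Nat.card_coe_set_eq, Set.ncard_coe_finset]
    refine (Multiset.toFinset_card_le _).trans ?_
    rw [aroots_def]
    exact (card_roots' _).trans natDegree_map_le
  rw [Nat.card_perm] at h1
  exact h1.trans (Nat.factorial_le h2)

end UBT
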