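import Mathlib
import Pool.Agent.Helper27_UBT.Stmts

/-! # UBT: BC2 -/

open Polynomial NumberField

namespace UBT

theorem bc2 : BC2Stmt := by
  intro R S _ _ _ _ _ _ ψ hψ hP c
  obtain ⟨I, rfl⟩ := ClassGroup.mk0_surjective c
  have hI : (I : Ideal R) ≠ ⊥ := mem_nonZeroDivisors_iff_ne_zero.1 I.2
  have hmap : ∀ J : Ideal R, J ≠ ⊥ → J.map ψ ≠ ⊥ := by
    intro J hJ h
    rw [Ideal.map_eq_bot_iff_of_injective hψ] at h
    exact hJ h
  refine ⟨ClassGroup.mk0 ⟨(I : Ideal R).map ψ, mem_nonZeroDivisors_iff_ne_zero.2 (hmap _ hI)⟩, ?_⟩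
  apply orderOf_eq_orderOf_iff.2
  intro n
  rw [← map_pow, ← map_pow, ClassGroup.mk0_eq_one_iff (SetLike.coe_mem _),
    ClassGroup.mk0_eq_one_iff (SetLike.coe_mem _)]
  have e1 : ((⟨(I : Ideal R).map ψ, mem_nonZeroDivisors_iff_ne_zero.2 (hmap _ hI)⟩ ^ n :
      nonZeroDivisors (Ideal S)) : Ideal S) = ((I : Ideal R) ^ n).map ψ := by
    rw [SubmonoidClass.coe_pow, Ideal.map_pow]
  have e2 : ((I ^ n : nonZeroDivisors (Ideal R)) : Ideal R) = (I : Ideal R) ^ n := by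
    rw [SubmonoidClass.coe_pow]
  rw [e1, e2]
  constructor
  · intro h
    exact hP _ (pow_ne_zero n hI) h
  · intro h
    obtain ⟨a, ha⟩ := h.principal
    refine ⟨⟨ψ a, ?_⟩⟩
    rw [ha, Ideal.submodule_span_eq, Ideal.submodule_span_eq, Ideal.map_span, Set.image_singleton]

end UBT
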