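import Mathlib
import Pool.Agent.Helper27_UBT.Stmts
import Pool.Agent.Helper81_UBT.Ext1

/-! # UBT: EXT2 -/

open Polynomial NumberField

namespace UBT

theorem ext2 : Ext2Stmt := by
  intro K₁ _ _ t
  have hF : (X ^ 2 - C t : K₁[X]) ≠ 0 := (monic_X_pow_sub_C t two_ne_zero).ne_zero
  have hd : (X ^ 2 - C t : K₁[X]).natDegree = 2 := natDegree_X_pow_sub_C
  obtain ⟨E, i1, i2, i3, hs, hr⟩ := ext1 K₁ (X ^ 2 - C t) hF
  rw [hd] at hr
  have hdeg : ((X ^ 2 - C t : K₁[X]).map (algebraMap K₁ E)).degree ≠ 0 := by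
    rw [degree_map, degree_X_pow_sub_C two_pos]
    decide
  obtain ⟨s, hs1⟩ := hs.exists_eval_eq_zero hdeg
  refine ⟨E, i1, i2, i3, s, ?_, hr⟩
  simp only [Polynomial.map_sub, Polynomial.map_pow, map_X, map_C, eval_sub, eval_pow, eval_X,
    eval_C] at hs1
  exact sub_eq_zero.1 hs1

end UBT
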